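import Pool.Agent.Y678.HV.Val
import Pool.Agent.Y916.SStm

/-!
# Job 1154 (SA/VALS): the G-system with one shift
-/

set_option autoImplicit false

open PowerSeries

namespace Pool.Agent.Y960.SA

open Pool.Agent.Y113 Pool.Agent.Y916.Hy Pool.Agent.Y916.Sa Pool.Agent.Y120.GF Pool.Agent.Y678.HV

/-- products of the members of `s` families -/
theorem gsys_pi {σ : Type} [Fintype σ] (s : ℕ) : ∀ (y : Fin s → ℕ → σ → ℚ⟦X⟧) (T : Fin s → ℕ → Polynomial ℤ),
    (∀ a, ∃ q E : ℕ, ∀ g : ℕ, GSys q (((g : ℝ) + 2) ^ E) (T a g) (y a g)) →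
    ∃ q E : ℕ, ∀ g : ℕ, GSys q (((g : ℝ) + 2) ^ E) (∏ a, T a g) (fun b : Fin s → σ => ∏ a, y a g (b a)) := by
  induction s with
  | zero =>
    intro y T _
    refine ⟨0, 0, fun g => ?_⟩
    have h1 : GSys 0 (1 : ℝ) 1 (fun _ : Fin 0 → σ => (1 : ℚ⟦X⟧)) := by
      refine GSys.const le_rfl (by simp) fun l => ?_
      rw [Polynomial.coeff_one]
      split_ifs <;> simp
    simpa using h1
  | succ k ih =>
    intro y T h
    obtain ⟨q, E, hE⟩ := ih (fun a => y a.succ) (fun a => T a.succ) (fun a => h a.succ)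
    obtain ⟨q₀, E₀, hE₀⟩ := h 0
    obtain ⟨E₁, hE₁⟩ := t_enl q₀ q
    obtain ⟨E₂, hE₂⟩ := t_enl q q₀
    obtain ⟨E₃, hE₃⟩ := t_prod (q + q₀)
    set E' := max E₀ E with hE'
    set E'' := (E' + 1) * (max E₁ E₂) with hE''
    refine ⟨q + q₀, (E'' + 1) * E₃, fun g => ?_⟩
    have hg1 := one_le_base g
    have h1 : GSys q₀ (((g : ℝ) + 2) ^ E') (T 0 g) (y 0 g) :=
      (hE₀ g).mono le_rfl (base_mono hg1 (le_max_left _ _))
    have h2 : GSys q (((g : ℝ) + 2) ^ E') (∏ a : Fin k, T a.succ g)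
        (fun b : Fin k → σ => ∏ a, y a.succ g (b a)) :=
      (hE g).mono le_rfl (base_mono hg1 (le_max_right _ _))
    have h3 := hE₁ _ _ _ (∏ a : Fin k, T a.succ g) _ h1 h2.degT h2.sizeT
    have h4 := hE₂ _ _ _ (T 0 g) _ h2 h1.degT h1.sizeT
    have hE1 : (2 * ((g : ℝ) + 2) ^ E') ^ E₁ ≤ ((g : ℝ) + 2) ^ E'' := by
      refine (pow_base g _ _).trans (base_mono hg1 ?_)
      exact Nat.mul_le_mul_left _ (le_max_left _ _)
    have hE2 : (2 * ((g : ℝ) + 2) ^ E') ^ E₂ ≤ ((g : ℝ) + 2) ^ E'' := by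
      refine (pow_base g _ _).trans (base_mono hg1 ?_)
      exact Nat.mul_le_mul_left _ (le_max_right _ _)
    have hPT : ∏ a, T a g = T 0 g * ∏ a : Fin k, T a.succ g := Fin.prod_univ_succ _
    have h5 : GSys (q + q₀) (((g : ℝ) + 2) ^ E'') (∏ a, T a g) (y 0 g) := by
      rw [hPT]
      exact h3.mono (by omega) hE1
    have h6 : GSys (q + q₀) (((g : ℝ) + 2) ^ E'') (∏ a, T a g)
        (fun b : Fin k → σ => ∏ a, y a.succ g (b a)) := by
      rw [hPT, mul_comm]
      exact h4.mono le_rfl hE2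
    have h7 := (hE₃ _ _ _ _ _ _ h5 h6).mono le_rfl (pow_base g _ _)
    have h8 := h7.reindex (Fin.consEquiv fun _ => σ).symm
    have h9 : (fun b : Fin (k + 1) → σ => ∏ a, y a g (b a)) = fun j =>
        y 0 g ((Fin.consEquiv fun _ => σ).symm j).1 *
          ∏ a : Fin k, y a.succ g (((Fin.consEquiv fun _ => σ).symm j).2 a) := by
      funext b
      rw [Fin.prod_univ_succ]
      rfl
    rw [h9]
    exact h8

/-! ### the roots -/

variable {s : ℕ} (P : Fin s → Polynomial ℤ) (m : Fin s → ℕ)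

/-- the products of the square roots with shift `g` -/
noncomputable def RS (g : ℕ) (S : Fin s → Bool) : ℚ⟦X⟧ := ∏ a, if S a then Rt (phi (P a) g) else 1

/-- the index of a single root -/
def sgl (a : Fin s) : Fin s → Bool := fun c => decide (c = a)

lemma RS_sgl (g : ℕ) (a : Fin s) : RS P g (sgl a) = Rt (phi (P a) g) := by
  classical
  unfold RS sgl
  rw [Finset.prod_eq_single a]
  · simp
  · intro c _ hc
    simp [hc]
  · simp

lemma RS_none (g : ℕ) : RS P g (fun _ => false) = 1 := by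
  unfold RS
  simp

lemma alg_one (halg : S_alg) (F : Polynomial ℤ) (hF : 0 < F.leadingCoeff) :
    ∃ q E : ℕ, ∀ g : ℕ, GSys q (((g : ℝ) + 2) ^ E) (phi F g)
      (fun b : Bool => if b then Rt (phi F g) else 1) := by
  set n := F.natDegree with hn
  obtain ⟨E₀, hE₀⟩ := phi_bd F
  obtain ⟨E₁, hE₁⟩ := halg n
  refine ⟨n, (E₀ + 2) * E₁, fun g => ?_⟩
  have hx := two_le_g g
  have hx1 := one_le_base g
  have h2 := hE₁ ((g + 2) ^ E₀) (phi F g) (by rw [phi_coeff_zero]; exact hF) (phi_natDegree F g)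
    (fun l => by
      have := hE₀ g l
      have h3 : ((|(phi F g).coeff l| : ℤ) : ℝ) ≤ (((g + 2) ^ E₀ : ℕ) : ℝ) := by
        push_cast
        exact this
      exact_mod_cast h3)
  refine h2.mono le_rfl ?_
  push_cast
  have h3 : ((g : ℝ) + 2) ^ E₀ + 2 ≤ ((g : ℝ) + 2) ^ (E₀ + 2) := by
    have h4 : (1 : ℝ) ≤ ((g : ℝ) + 2) ^ E₀ := one_le_pow₀ hx1
    have h5 : (4 : ℝ) ≤ ((g : ℝ) + 2) ^ 2 := by nlinarith
    rw [pow_add]
    nlinarith [mul_le_mul_of_nonneg_left h5 (show (0 : ℝ) ≤ ((g : ℝ) + 2) ^ E₀ by positivity)]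
  calc (((g : ℝ) + 2) ^ E₀ + 2) ^ E₁ ≤ (((g : ℝ) + 2) ^ (E₀ + 2)) ^ E₁ :=
        pow_le_pow_left₀ (by positivity) h3 _
    _ = ((g : ℝ) + 2) ^ ((E₀ + 2) * E₁) := by rw [pow_mul]

theorem RS_sys (halg : S_alg) (hP : ∀ a, 0 < (P a).leadingCoeff) :
    ∃ q E : ℕ, ∀ g : ℕ, GSys q (((g : ℝ) + 2) ^ E) (∏ a, phi (P a) g) (RS P g) :=
  gsys_pi (σ := Bool) s (fun a g b => if b then Rt (phi (P a) g) else 1) (fun a g => phi (P a) g)
    fun a => alg_one halg (P a) (hP a)

/-! ### the integrals and the logarithm -/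

/-- the indices of the functions with one shift -/
abbrev BI : Type := ((Fin s → Bool) ⊕ (Σ a, Fin (m a))) ⊕ Unit

/-- the functions with one shift -/
noncomputable def bf (g : ℕ) : BI m → ℚ⟦X⟧ :=
  Sum.elim (Sum.elim (RS P g) fun aj => Yg P m g (Sum.inl aj)) fun _ => Yg P m g (Sum.inr ())

/-- the denominator -/
noncomputable def Tg (g : ℕ) : Polynomial ℤ :=
  Polynomial.X * (∏ a, phi (P a) g) * (1 + Polynomial.C (g : ℤ) * Polynomial.X)

/-- logarithm -/
lemma log_int (g : ℕ) : coeff 0 (Yg P m g (Sum.inr ())) = 0 ∧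
    d⁄dX ℚ (Yg P m g (Sum.inr ())) = (g : ℚ⟦X⟧) * PowerSeries.mk (fun m => (-(g : ℚ)) ^ m) := by
  constructor
  · unfold Yg
    rw [coeff_mk]
    simp
  · ext i
    have h3 : (g : ℚ⟦X⟧) = PowerSeries.C (g : ℚ) := by simp
    rw [coeff_derivative, h3, coeff_C_mul, coeff_mk]
    unfold Yg
    rw [coeff_mk]
    have : ((i : ℚ) + 1) ≠ 0 := by positivity
    push_cast
    field_simp
    ring

lemma bf_none (g : ℕ) : bf P m g (Sum.inl (Sum.inl fun _ => false)) = 1 := RS_none P g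

theorem base_sys (halg : S_alg) (heint : S_eint) (hP : ∀ a, GoodO (P a) ∧ m a < (P a).natDegree) :
    ∃ q E : ℕ, ∀ g : ℕ, GSys q (((g : ℝ) + 2) ^ E) (Tg P g) (bf P m g) ∧
      GSys q (((g : ℝ) + 2) ^ E) (Tg P g) (RS P g) := by
  classical
  set n := ∑ a, (P a).natDegree with hn
  have hna : ∀ a, (P a).natDegree ≤ n := fun a =>
    Finset.single_le_sum (f := fun a => (P a).natDegree) (fun _ _ => Nat.zero_le _) (Finset.mem_univ a)
  obtain ⟨q₁, E₁, hE₁⟩ := RS_sys P halg fun a => (hP a).1.pos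
  obtain ⟨E₂, hE₂⟩ := heint (Fintype.card (Fin s → Bool)) q₁ n n
  obtain ⟨E₃, hE₃⟩ := t_enl (q₁ + n + 1) 1
  obtain ⟨E₄, hE₄⟩ := int_ext (q₁ + n + 1 + 1) 1
  obtain ⟨E₅, hE₅⟩ := t_enl q₁ 2
  set A := E₁ + 2 * n with hA
  set B := (A + 1) * E₂ + 1 with hB
  set D := (B + 1) * E₃ + B + A + 1 with hD
  refine ⟨q₁ + n + 1 + 1, (D + 1) * E₄ + (A + 3 + 1) * E₅, fun g => ?_⟩
  have hx := two_le_g g
  have hx1 := one_le_base g
  have h1 : GSys q₁ (((g : ℝ) + 2) ^ A) (∏ a, phi (P a) g) (RS P g) :=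
    (hE₁ g).mono le_rfl (base_mono hx1 (by omega))
  have hle : ∀ k, 1 ≤ k → (g : ℝ) + 2 ≤ ((g : ℝ) + 2) ^ k := fun k hk => le_self_pow₀ hx1 (by omega)
  -- the integrals
  have h2 := hE₂ (Fin s → Bool) (Σ a, Fin (m a)) (((g : ℝ) + 2) ^ A) (∏ a, phi (P a) g) _
    (fun aj => Yg P m g (Sum.inl aj)) le_rfl h1 (fun aj => by
      obtain ⟨a, j⟩ := aj
      have hj := j.2
      have hm := (hP a).2
      have hodd := (hP a).1.odd
      have hn' := hna a
      have ho : Odd (((P a).natDegree : ℤ) - 2 - 2 * (j : ℕ)) := by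
        obtain ⟨c, hc⟩ := hodd
        refine ⟨(c : ℤ) - 1 - (j : ℕ), ?_⟩
        have hm' : ((P a).natDegree : ℤ) = 2 * c + 1 := by exact_mod_cast hc
        linarith
      refine ⟨((P a).natDegree : ℤ) - 2 - 2 * (j : ℕ), fun b => if b = sgl a then
        (1 + Polynomial.C (g : ℤ) * Polynomial.X) ^ (j : ℕ) else 0, ho, ?_, ?_, ?_, ?_⟩
      · have := hodd.pos
        rw [abs_le]
        constructor <;> omega
      · intro b
        dsimp only
        split_ifs
        · have := ((Bd_one_add g).pow (j : ℕ)).1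
          omega
        · simp
      · intro b l
        dsimp only
        split_ifs
        · refine (((Bd_one_add g).pow (j : ℕ)).2 l).trans ?_
          have h5 : ((1 : ℕ) : ℝ) + 1 ≤ (g : ℝ) + 2 := by push_cast; linarith
          calc ((((1 : ℕ) : ℝ) + 1) * ((g : ℝ) + 2)) ^ (j : ℕ) ≤ (((g : ℝ) + 2) * ((g : ℝ) + 2)) ^ (j : ℕ) :=
                pow_le_pow_left₀ (by positivity) (mul_le_mul_of_nonneg_right h5 (by positivity)) _
            _ = ((g : ℝ) + 2) ^ (2 * (j : ℕ)) := by rw [pow_mul, sq]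
            _ ≤ _ := base_mono hx1 (by omega)
        · simp
          positivity
      · have h5 := Pool.Agent.Y678.HV.EU_eq (((P a).natDegree : ℤ) - 2 - 2 * (j : ℕ)) ho
          ((1 + C (g : ℚ) * X) ^ (j : ℕ) * Rt (phi (P a) g))
        rw [Finset.sum_eq_single (sgl a)]
        · dsimp only
          rw [if_pos rfl, RS_sgl, ps_pow, ps_one_add]
          exact h5
        · intro b _ hb
          dsimp only
          rw [if_neg hb, ps_zero, zero_mul]
        · intro h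
          exact absurd (Finset.mem_univ _) h)
  have h3 : GSys (q₁ + n + 1) (((g : ℝ) + 2) ^ B) (Polynomial.X * ∏ a, phi (P a) g)
      (Sum.elim (RS P g) fun aj : Σ a, Fin (m a) => Yg P m g (Sum.inl aj)) :=
    h2.mono le_rfl ((pow_base g _ _).trans (base_mono hx1 (by omega)))
  -- the factor `1 + g X`
  have h4 := hE₃ _ _ _ (1 + Polynomial.C (g : ℤ) * Polynomial.X) _ h3 (Bd_one_add g).1
    (fun l => ((Bd_one_add g).2 l).trans (hle _ (by omega)))
  have h5 : GSys (q₁ + n + 1 + 1) (((g : ℝ) + 2) ^ D) (Tg P g)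
      (Sum.elim (RS P g) fun aj : Σ a, Fin (m a) => Yg P m g (Sum.inl aj)) :=
    h4.mono le_rfl ((pow_base g _ _).trans (base_mono hx1 (by omega)))
  -- the logarithm
  have h6 := hE₄ _ Unit _ _ _ (fun _ => Yg P m g (Sum.inr ())) h5 (fun _ => by
    obtain ⟨e1, e2⟩ := log_int P m g
    refine ⟨e1, fun _ => (g : ℤ), fun _ => PowerSeries.mk (fun m => (-(g : ℚ)) ^ m), fun _ => ?_, fun _ => ?_, ?_⟩
    · push_cast
      rw [abs_of_nonneg (Nat.cast_nonneg _)]
      have := hle D (by omega)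
      linarith
    · refine ⟨1, (g : ℤ), Polynomial.X * ∏ a, phi (P a) g, Sum.inl fun _ => false, Or.inl rfl, ?_, ?_, ?_, ?_⟩
      · push_cast
        rw [abs_of_nonneg (Nat.cast_nonneg _)]
        have := hle D (by omega)
        linarith
      · rw [Polynomial.C_1, mul_comm]
        rfl
      · intro l
        exact (h3.sizeT l).trans (base_mono hx1 (by omega))
      · rw [Polynomial.C_1, ps_one_add, geo]
        have e3 := RS_none P g
        simp only [Sum.elim_inl, e3]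
        try ring
    · rw [e2, Fin.sum_univ_one]
      push_cast
      rfl)
  refine ⟨(h6.mono le_rfl (pow_base g _ _)).mono le_rfl (base_mono hx1 (by omega)), ?_⟩
  -- the roots with the same denominator
  have h7 : Bd (1 + 1) ((((1 : ℕ) : ℝ) + 1) * (1 * ((g : ℝ) + 2)))
      (Polynomial.X * (1 + Polynomial.C (g : ℤ) * Polynomial.X)) := by
    refine Bd.mul ⟨Polynomial.natDegree_X_le, fun l => ?_⟩ (Bd_one_add g)
    rw [Polynomial.coeff_X]
    split_ifs <;> simp
  have h8 := hE₅ _ _ _ (Polynomial.X * (1 + Polynomial.C (g : ℤ) * Polynomial.X)) _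
    (h1.mono le_rfl (base_mono hx1 (show A ≤ A + 3 by omega))) h7.1 (fun l => (h7.2 l).trans (by
      have e1 : ((g : ℝ) + 2) ^ 2 ≤ ((g : ℝ) + 2) ^ (A + 3) := base_mono hx1 (by omega)
      refine le_trans ?_ e1
      push_cast
      nlinarith))
  have h9 : (∏ a, phi (P a) g) * (Polynomial.X * (1 + Polynomial.C (g : ℤ) * Polynomial.X)) = Tg P g := by
    unfold Tg
    ring
  rw [h9] at h8
  exact h8.mono (by omega) ((pow_base g _ _).trans (base_mono hx1 (by omega)))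

end Pool.Agent.Y960.SA
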