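import Pool.Agent.Y960.SA.Mon

/-!
# Job 1154 (SA/VALS): the values theorem
-/

set_option autoImplicit false

open PowerSeries

namespace Pool.Agent.Y960.SA

open Pool.Agent.Y113 Pool.Agent.Y916.Hy Pool.Agent.Y916.Sa Pool.Agent.Y120.GF

lemma phi_ne {F : Polynomial ℤ} (hF : 0 < F.leadingCoeff) {E₂ n : ℕ} (hn : F.natDegree ≤ n) {H t g : ℕ}
    (hE₂ : ∀ l : ℕ, |(((phi F g).coeff l : ℤ) : ℝ)| ≤ ((H : ℝ) + 2) ^ E₂)
    (ht : (H + 2) ^ (E₂ + n + 1) ≤ t) :
    Polynomial.aeval (1 / (t : ℝ)) (phi F g) ≠ 0 := by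
  set T := phi F g with hT
  set d := T.natDegree with hd
  have hdn : d ≤ n := (Pool.Agent.Y678.HV.phi_natDegree F g).trans hn
  set A : ℕ := (H + 2) ^ E₂ with hA
  have hA1 : 1 ≤ A := Nat.one_le_pow _ _ (by omega)
  have hcoef : ∀ l, |((T.coeff l : ℤ) : ℝ)| ≤ A := by
    intro l
    refine (hE₂ l).trans ?_
    rw [hA]
    push_cast
    exact le_rfl
  have h1 : n * A < t := by
    have h2 : n < (H + 2) ^ n := (Nat.lt_two_pow_self).trans_le (Nat.pow_le_pow_left (by omega) _)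
    calc n * A < (H + 2) ^ n * A := Nat.mul_lt_mul_of_pos_right h2 hA1
      _ = (H + 2) ^ (E₂ + n) := by rw [hA, ← pow_add, Nat.add_comm n E₂]
      _ ≤ (H + 2) ^ (E₂ + n + 1) := Nat.pow_le_pow_right (by omega) (by omega)
      _ ≤ t := ht
  have ht0 : (0 : ℝ) < t := by
    have : 0 < t := by omega
    exact_mod_cast this
  have ht1 : (1 : ℝ) ≤ t := by
    have : 1 ≤ t := by omega
    exact_mod_cast this
  rw [Polynomial.aeval_eq_sum_range, Finset.sum_range_succ']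
  have h2 : |∑ k ∈ Finset.range d, T.coeff (k + 1) • (1 / (t : ℝ)) ^ (k + 1)| ≤ d * (A / t) := by
    refine (Finset.abs_sum_le_sum_abs _ _).trans ?_
    have h3 : ∀ k ∈ Finset.range d, |T.coeff (k + 1) • (1 / (t : ℝ)) ^ (k + 1)| ≤ A / t := by
      intro k _
      rw [zsmul_eq_mul, abs_mul]
      have h4 := hcoef (k + 1)
      have h5 : |(1 / (t : ℝ)) ^ (k + 1)| ≤ 1 / t := by
        rw [abs_of_nonneg (by positivity), pow_succ]
        have : (1 / (t : ℝ)) ^ k ≤ 1 := pow_le_one₀ (by positivity) (by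
          rw [div_le_one ht0]; exact ht1)
        calc (1 / (t : ℝ)) ^ k * (1 / t) ≤ 1 * (1 / t) :=
              mul_le_mul_of_nonneg_right this (by positivity)
          _ = _ := one_mul _
      calc |((T.coeff (k + 1) : ℤ) : ℝ)| * |(1 / (t : ℝ)) ^ (k + 1)| ≤ A * (1 / t) :=
            mul_le_mul h4 h5 (abs_nonneg _) (by positivity)
        _ = A / t := by ring
    refine (Finset.sum_le_sum h3).trans ?_
    simp
  have h6 : (d : ℝ) * (A / t) < 1 := by
    have h7 : (d : ℝ) ≤ n := by exact_mod_cast hdn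
    have h8 : (n : ℝ) * (A / t) < 1 := by
      rw [← mul_div_assoc, div_lt_one ht0]
      exact_mod_cast h1
    have h9 : (0 : ℝ) ≤ A / t := by positivity
    nlinarith
  have h7 := (abs_lt.1 (h2.trans_lt h6)).1
  have h0 : 1 ≤ T.coeff 0 := by rw [hT, Pool.Agent.Y678.HV.phi_coeff_zero]; exact hF
  have h0' : (1 : ℝ) ≤ (T.coeff 0 : ℤ) := by exact_mod_cast h0
  intro h8
  simp only [pow_zero, zsmul_eq_mul, mul_one] at h8 h7
  linarith

theorem vals_of (hrt : S_rt) (halg : S_alg) (heint : S_eint) (hkap : S_kap) : S_vals := by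
  classical
  intro s P m hP hLI N Δ
  obtain ⟨q₀, E₀, hE₀⟩ := OS_sys P m Δ halg heint hP
  obtain ⟨q, E₁, hE₁⟩ := gsys_multi (fun g => OS P m Δ g) (fun g => Tg P g) q₀ E₀ hE₀ N
  obtain ⟨q₆, E₆, hE₆⟩ := base_sys P m halg heint hP
  -- bounds for `phi`
  choose Ea hEa using fun a => Pool.Agent.Y678.HV.phi_bd (P a)
  set E₂ := ∑ a, Ea a with hE₂
  set n := ∑ a, (P a).natDegree with hn
  have hna : ∀ a, (P a).natDegree ≤ n := fun a =>
    Finset.single_le_sum (f := fun a => (P a).natDegree) (fun _ _ => Nat.zero_le _) (Finset.mem_univ a)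
  have hEaE : ∀ a, Ea a ≤ E₂ := fun a =>
    Finset.single_le_sum (f := fun a => Ea a) (fun _ _ => Nat.zero_le _) (Finset.mem_univ a)
  set cI := Fintype.card (Fin s × Fin N) with hcI
  obtain ⟨E₅, hE₅⟩ := hkap n cI
  set a₀ := (E₂ + 2) * E₅ + E₅ + E₂ + n with ha₀
  set K := Δ + 1 with hK
  set K' := K * cI with hK'
  set cF := 2 * (2 * (2 * (3 * a₀) * K) * cI) + 2 * (2 * a₀ * K') * cI with hcF
  set cN := 2 * (2 * (2 * (2 * (3 * a₀) * K) + 2 * a₀ * K) * cI) + 2 * (2 * (2 * a₀ * K') + 2 * a₀ * K') * cI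
    with hcN
  set Nk := Fintype.card (Finset (Fin s × Fin N) × (Fin N → Dx m Δ)) with hNk
  set Ni := Fintype.card (Fin N → WI m Δ) with hNi
  obtain ⟨E₃, hE₃⟩ := Pool.Agent.Y678.HV.t_col (max Ni Nk) q (cF + cN)
  obtain ⟨E₄, hE₄⟩ := G_of Pool.Agent.Y141.GF.t_shid Pool.Agent.Y141.GF.t_loc Nk (q + (cF + cN))
  set B := E₁ + cF + cN with hB
  refine ⟨((B + 1) * E₃ + 1) * E₄ + (E₂ + n + 1) + (E₆ + 1), fun H t ht g hg hgH Q hQ hQv => ?_⟩
  have hHB : (1 : ℝ) ≤ (H : ℝ) + 2 := one_le_base H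
  have htN : ∀ a, a ≤ ((B + 1) * E₃ + 1) * E₄ + (E₂ + n + 1) + (E₆ + 1) → (H + 2) ^ a ≤ t := fun a ha =>
    (Nat.pow_le_pow_right (by omega) ha).trans ht
  have htR : ∀ a, a ≤ ((B + 1) * E₃ + 1) * E₄ + (E₂ + n + 1) + (E₆ + 1) →
      ((H : ℝ) + 2) ^ a ≤ t := fun a ha => by exact_mod_cast htN a ha
  have ht1 : (1 : ℝ) ≤ t := by simpa using htR 0 (by omega)
  have ht0 : (0 : ℝ) < t := by linarith
  have hgl : ∀ l, ((g l : ℕ) : ℝ) + 2 ≤ (H : ℝ) + 2 := fun l => by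
    have : ((g l : ℕ) : ℝ) ≤ H := by exact_mod_cast (hgH l).2
    linarith
  -- the set of the roots
  obtain ⟨J, hJ, hind⟩ := hLI N g hg fun l => (hgH l).1
  choose T hTJ hTs using hJ
  -- bounds
  have hφc : ∀ (i : Fin s × Fin N) (l : ℕ), |(((phi (P i.1) (g i.2)).coeff l : ℤ) : ℝ)| ≤ ((H : ℝ) + 2) ^ E₂ := by
    intro i l
    refine (hEa i.1 (g i.2) l).trans ?_
    exact (pow_le_pow_left₀ (by positivity) (hgl i.2) _).trans (base_mono hHB (hEaE i.1))
  have hφB : ∀ i : Fin s × Fin N, Bx H a₀ (phi (P i.1) (g i.2)) := by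
    intro i
    refine ⟨((Pool.Agent.Y678.HV.phi_natDegree _ _).trans (hna i.1)).trans (by omega), fun l => ?_⟩
    exact (hφc i l).trans (base_mono hHB (by omega))
  have hφ0 : ∀ i : Fin s × Fin N, 0 < (phi (P i.1) (g i.2)).coeff 0 := by
    intro i
    rw [Pool.Agent.Y678.HV.phi_coeff_zero]
    exact (hP i.1).1.pos
  have hkap' : ∀ i : Fin s × Fin N, ∃ (M : ℤ) (W : Polynomial ℤ), 0 < M ∧ M ≤ (((H + 2) ^ E₂ : ℕ) + 2 : ℤ) ^ E₅ ∧
      W.natDegree ≤ E₅ ∧ (∀ l, |W.coeff l| ≤ (((H + 2) ^ E₂ : ℕ) + 2 : ℤ) ^ E₅) ∧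
      ps (Polynomial.C M * phi (P i.1) (g i.2)) * Rt (phi (P i.1) (g i.2)) =
        ps W * ∏ j ∈ T i, Rt (phi (P j.1) (g j.2)) := by
    intro i
    refine hE₅ ((H + 2) ^ E₂) (Fin s × Fin N) (T i) i (fun j => phi (P j.1) (g j.2)) le_rfl (fun j => ?_) (hTs i)
    refine ⟨hφ0 j, (Pool.Agent.Y678.HV.phi_natDegree _ _).trans (hna j.1), fun l => ?_⟩
    have h1 := hφc j l
    have h2 : ((|(phi (P j.1) (g j.2)).coeff l| : ℤ) : ℝ) ≤ (((H + 2) ^ E₂ : ℕ) : ℝ) := by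
      push_cast
      exact h1
    exact_mod_cast h2
  choose M W hM0 hM1 hW1 hW2 hMW using hkap'
  have hbig : ((((((H + 2) ^ E₂ : ℕ) + 2 : ℤ) ^ E₅ : ℤ)) : ℝ) ≤ ((H : ℝ) + 2) ^ ((E₂ + 2) * E₅) := by
    push_cast
    have hx : (2 : ℝ) ≤ (H : ℝ) + 2 := by
      have : (0 : ℝ) ≤ H := Nat.cast_nonneg _
      linarith
    have h3 : ((H : ℝ) + 2) ^ E₂ + 2 ≤ ((H : ℝ) + 2) ^ (E₂ + 2) := by
      have h4 : (1 : ℝ) ≤ ((H : ℝ) + 2) ^ E₂ := one_le_pow₀ hHB
      have h5 : (4 : ℝ) ≤ ((H : ℝ) + 2) ^ 2 := by nlinarith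
      rw [pow_add]
      nlinarith [mul_le_mul_of_nonneg_left h5 (show (0 : ℝ) ≤ ((H : ℝ) + 2) ^ E₂ by positivity)]
    calc (((H : ℝ) + 2) ^ E₂ + 2) ^ E₅ ≤ (((H : ℝ) + 2) ^ (E₂ + 2)) ^ E₅ :=
          pow_le_pow_left₀ (by positivity) h3 _
      _ = _ := by rw [pow_mul]
  have hMB : ∀ i, |((M i : ℤ) : ℝ)| ≤ ((H : ℝ) + 2) ^ a₀ := by
    intro i
    have h1 : (0 : ℝ) < (M i : ℤ) := by exact_mod_cast hM0 i
    rw [abs_of_pos h1]
    have h2 : ((M i : ℤ) : ℝ) ≤ ((((((H + 2) ^ E₂ : ℕ) + 2 : ℤ) ^ E₅ : ℤ)) : ℝ) := by exact_mod_cast hM1 i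
    exact (h2.trans hbig).trans (base_mono hHB (by omega))
  have hWB : ∀ i, Bx H a₀ (W i) := by
    intro i
    refine ⟨(hW1 i).trans (by omega), fun l => ?_⟩
    have h2 : ((|(W i).coeff l| : ℤ) : ℝ) ≤ ((((((H + 2) ^ E₂ : ℕ) + 2 : ℤ) ^ E₅ : ℤ)) : ℝ) := by
      exact_mod_cast hW2 i l
    rw [Int.cast_abs] at h2
    exact (h2.trans hbig).trans (base_mono hHB (by omega))
  set c : Fin s × Fin N → ℤ := fun i => (phi (P i.1) (g i.2)).coeff 0 with hc
  have hcB : ∀ i, |((c i : ℤ) : ℝ)| ≤ ((H : ℝ) + 2) ^ a₀ := fun i => (hφB i).2 0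
  have hr : ∀ i, rt P g i ^ 2 * ps (phi (P i.1) (g i.2)) = ((c i : ℤ) : ℚ⟦X⟧) := by
    intro i
    rw [rt, (hrt _ (hφ0 i)).1, hc]
    simp
  -- the collapse
  set FF := fac K K' M (fun i : Fin s × Fin N => phi (P i.1) (g i.2)) with hFF
  choose kk pp hkk hpp using word_red P m Δ g J M c W T hr hTJ hMW
  choose wd hwd using wf_word P m Δ g J
  have hCB : ∀ a, a ≤ B → ((H : ℝ) + 2) ^ a ≤ ((H : ℝ) + 2) ^ B := fun a ha => base_mono hHB ha
  have hFB : Bx H cF FF := fac_bd K K' H a₀ cI le_rfl M _ hMB hφB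
  have hNB : ∀ b : Fin N → WI m Δ, Bx H cN (num K K' M (fun i : Fin s × Fin N => phi (P i.1) (g i.2)) W c
      (fun i => eR m Δ (b i.2) i.1) (kk b)) := fun b =>
    num_bd K K' H a₀ cI le_rfl M c _ W hMB hcB hφB hWB _ _ (fun i => eR_le m Δ _ _) (hkk b)
  have hG0 := (hE₁ H g (fun l => (hgH l).2)).mono le_rfl (hCB E₁ (by omega))
  have hcardK : Fintype.card (KI m Δ J) ≤ Nk := by
    rw [hNk, Fintype.card_prod, Fintype.card_prod]
    refine Nat.mul_le_mul_right _ ?_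
    exact Fintype.card_subtype_le _
  have hcol := hE₃ (Fin N → WI m Δ) (KI m Δ J) (((H : ℝ) + 2) ^ B) (∏ l, Tg P (g l)) FF
    (fun b => ∏ l, OS P m Δ (g l) (b l)) (wf P m Δ g J) wd
    (fun b p => if p = pp b then num K K' M (fun i : Fin s × Fin N => phi (P i.1) (g i.2)) W c
      (fun i => eR m Δ (b i.2) i.1) (kk b) else 0)
    (le_max_left _ _) (hcardK.trans (le_max_right _ _)) hG0 hwd (hFB.1.trans (by omega))
    (fun l => (hFB.2 l).trans (hCB _ (by omega))) ?_ ?_ ?_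
  rotate_left
  · intro b p
    split_ifs
    · exact (hNB b).1.trans (by omega)
    · simp
  · intro b p l
    split_ifs
    · exact ((hNB b).2 l).trans (hCB _ (by omega))
    · simp; positivity
  · intro b
    rw [Finset.sum_eq_single (pp b)]
    · rw [if_pos rfl]
      exact hpp b
    · intro p _ hp
      rw [if_neg hp, ps_zero, zero_mul]
    · intro h
      exact absurd (Finset.mem_univ _) h
  have hG : GSys (q + (cF + cN)) (((H : ℝ) + 2) ^ ((B + 1) * E₃)) ((∏ l, Tg P (g l)) * FF) (wf P m Δ g J) :=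
    hcol.mono le_rfl (pow_base H _ _)
  -- non-vanishing
  have hph : ∀ i : Fin s × Fin N, Polynomial.aeval (1 / (t : ℝ)) (phi (P i.1) (g i.2)) ≠ 0 := fun i =>
    phi_ne (hP i.1).1.pos (hna i.1) (hφc i) (htN _ (by omega))
  have hT0 : Polynomial.aeval (1 / (t : ℝ)) ((∏ l, Tg P (g l)) * FF) ≠ 0 := by
    rw [map_mul, map_prod]
    refine mul_ne_zero (Finset.prod_ne_zero_iff.2 fun l _ => ?_) ?_
    · unfold Tg
      rw [map_mul, map_mul, Polynomial.aeval_X, map_prod]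
      refine mul_ne_zero (mul_ne_zero (by positivity) (Finset.prod_ne_zero_iff.2 fun a _ => hph (a, l))) ?_
      rw [map_add, map_mul, map_one, Polynomial.aeval_X, Polynomial.aeval_C]
      have : (0 : ℝ) ≤ (algebraMap ℤ ℝ) (g l : ℤ) * (1 / (t : ℝ)) := by
        simp only [eq_intCast, Int.cast_natCast]
        positivity
      intro h
      linarith
    · rw [hFF]
      unfold fac
      rw [map_mul, map_prod, map_prod]
      refine mul_ne_zero (Finset.prod_ne_zero_iff.2 fun i _ => ?_) (Finset.prod_ne_zero_iff.2 fun i _ => ?_)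
      · rw [map_pow, map_mul, Polynomial.aeval_C]
        refine pow_ne_zero _ (mul_ne_zero ?_ (hph i))
        rw [eq_intCast]
        exact_mod_cast (hM0 i).ne'
      · rw [map_pow]
        exact pow_ne_zero _ (hph i)
  -- linear independence of the values
  have hlin : LinearIndependent (Polynomial ℚ) (wf P m Δ g J) := by
    have h1 := hind.comp (fun p : KI m Δ J => (p.1, DD m Δ p.2)) (by
      intro p p' h
      have e1 := congrArg Prod.fst h
      have e2 := congrArg Prod.snd h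
      exact Prod.ext e1 (DD_inj m Δ e2))
    have h2 : wf P m Δ g J = (fun p : {T : Finset (Fin s × Fin N) // T ⊆ J} × (Fin N × Tau m →₀ ℕ) =>
          (∏ i ∈ p.1.1, Rt (phi (P i.1) (g i.2))) * p.2.prod fun x e => Yg P m (g x.1) x.2 ^ e) ∘
          (fun p : KI m Δ J => (p.1, DD m Δ p.2)) := by
      funext p
      exact wf_eq P m Δ g J p
    rw [h2]
    exact h1
  obtain ⟨b₀, hb₀⟩ := exists_d m Δ (N := N) 0 (by simp)
  set p₀ : KI m Δ J := (⟨∅, Finset.empty_subset J⟩, b₀) with hp₀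
  have hev := hE₄ (KI m Δ J) _ _ _ p₀ t hcardK hG (by
      rw [wf_eq P m Δ g J p₀, hp₀]
      dsimp only
      rw [hb₀]
      simp) hlin
    (by
      have h1 : (2 * ((H : ℝ) + 2) ^ ((B + 1) * E₃)) ^ E₄ ≤ ((H : ℝ) + 2) ^ (((B + 1) * E₃ + 1) * E₄) :=
        pow_base H _ _
      exact h1.trans (htR _ (by omega)))
    hT0
  -- evaluation
  have hcv : ∀ x : Fin N × Tau m, Cv (t : ℝ) (Yg P m (g x.1) x.2) := by
    intro x
    refine Cv.of_bound ht0 (A := ((H : ℝ) + 2) ^ E₆) (B := ((H : ℝ) + 2) ^ E₆) (by positivity) ?_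
      fun i => ?_
    · refine lt_of_lt_of_le ?_ (htR (E₆ + 1) (by omega))
      exact pow_lt_pow_right₀ (by linarith [show (0 : ℝ) ≤ H by positivity]) (by omega)
    · have h1 : |((coeff i (Yg P m (g x.1) x.2) : ℚ) : ℝ)| ≤ ((((g x.1 : ℕ) : ℝ) + 2) ^ E₆) ^ (i + 1) := by
        rcases x with ⟨l, aj | u⟩
        · exact (hE₆ (g l)).1.size (Sum.inl (Sum.inr aj)) i
        · exact (hE₆ (g l)).1.size (Sum.inr u) i
      have h2 : ((((g x.1 : ℕ) : ℝ) + 2) ^ E₆) ^ (i + 1) ≤ (((H : ℝ) + 2) ^ E₆) ^ (i + 1) :=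
        pow_le_pow_left₀ (by positivity) (pow_le_pow_left₀ (by positivity) (hgl x.1) _) _
      have h3 := h1.trans h2
      rw [pow_succ'] at h3
      exact h3
  have hmo : ∀ p : KI m Δ J, p.1.1 = ∅ → ev t (wf P m Δ g J p) =
      ∏ x, (ev t (Yg P m (g x.1) x.2)) ^ (DD m Δ p.2 x) := by
    intro p hp
    rw [wf_eq P m Δ g J p, hp, Finset.prod_empty, one_mul, Finsupp.prod_fintype _ _ (fun _ => pow_zero _),
      Cv.ev_prod ht0 _ _ fun x _ => (hcv x).pow ht0 _]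
    exact Finset.prod_congr rfl fun x _ => (hcv x).ev_pow ht0 _
  set cc : KI m Δ J → ℚ := fun p => if p.1.1 = ∅ then Q.coeff (DD m Δ p.2) else 0 with hcc
  have hsum : ∑ p, cc p • ev t (wf P m Δ g J p) = 0 := by
    rw [← hQv, MvPolynomial.aeval_def, MvPolynomial.eval₂_eq']
    have h1 : ∑ p, cc p • ev t (wf P m Δ g J p) =
        ∑ p ∈ Finset.univ.filter (fun p : KI m Δ J => p.1.1 = ∅),
          (algebraMap ℚ ℝ) (Q.coeff (DD m Δ p.2)) * ∏ x, ev t (Yg P m (g x.1) x.2) ^ (DD m Δ p.2 x) := by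
      rw [Finset.sum_filter]
      refine Finset.sum_congr rfl fun p _ => ?_
      rw [hcc]
      dsimp only
      split_ifs with h
      · rw [hmo p h, Algebra.smul_def]
      · rw [zero_smul]
    have hinj : Set.InjOn (fun p : KI m Δ J => DD m Δ p.2)
        (Finset.univ.filter (fun p : KI m Δ J => p.1.1 = ∅)) := by
      intro p hp p' hp' h
      have h2 : p.1.1 = ∅ := by simpa using hp
      have h3 : p'.1.1 = ∅ := by simpa using hp'
      exact Prod.ext (Subtype.ext (h2.trans h3.symm)) (DD_inj m Δ h)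
    have h2 := Finset.sum_image (f := fun d => (algebraMap ℚ ℝ) (Q.coeff d) *
      ∏ x, ev t (Yg P m (g x.1) x.2) ^ (d x)) hinj
    rw [h1, ← h2]
    symm
    refine Finset.sum_subset ?_ ?_
    · intro d hd
      have h3 : (d.sum fun _ k => k) ≤ Δ := (MvPolynomial.le_totalDegree hd).trans hQ
      obtain ⟨b, hb⟩ := exists_d m Δ d h3
      exact Finset.mem_image.2 ⟨(⟨∅, Finset.empty_subset J⟩, b), by simp, hb⟩
    · intro d _ hd
      rw [MvPolynomial.notMem_support_iff.1 hd]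
      simp
  have h3 := Fintype.linearIndependent_iff.1 hev cc hsum
  ext d
  rw [MvPolynomial.coeff_zero]
  by_contra hne
  have h4 : (d.sum fun _ k => k) ≤ Δ :=
    (MvPolynomial.le_totalDegree (MvPolynomial.mem_support_iff.2 hne)).trans hQ
  obtain ⟨b, hb⟩ := exists_d m Δ d h4
  have h5 := h3 (⟨∅, Finset.empty_subset J⟩, b)
  rw [hcc] at h5
  dsimp only at h5
  rw [if_pos rfl, hb] at h5
  exact hne h5

end Pool.Agent.Y960.SA
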