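import Pool.Agent.Y113.P.Fin

/-!
# Job 1154 (SA/VALS): bounded polynomials, reduction of products of square roots
-/

set_option autoImplicit false

open PowerSeries

namespace Pool.Agent.Y960.SA

open Pool.Agent.Y113

/-- degree `≤ c` and coefficients `≤ (H + 2) ^ c` -/
def Bx (H c : ℕ) (P : Polynomial ℤ) : Prop := Bd c (((H : ℝ) + 2) ^ c) P

lemma Bx.mono {H c c' : ℕ} {P : Polynomial ℤ} (h : Bx H c P) (hc : c ≤ c') : Bx H c' P :=
  Bd.mono h hc (base_mono (one_le_base H) hc)

lemma Bx.mul {H a b : ℕ} {P Q : Polynomial ℤ} (h : Bx H a P) (h' : Bx H b Q) : Bx H (2 * a + b) (P * Q) := by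
  have h1 := Bd.mul h h'
  refine Bd.mono h1 (by omega) ?_
  have hx := one_le_base H
  have h2 : ((a : ℝ) + 1) ≤ ((H : ℝ) + 2) ^ a :=
    (succ_le_two_pow a).trans (pow_le_pow_left₀ (by norm_num) (by
      have : (0 : ℝ) ≤ H := Nat.cast_nonneg _
      linarith) _)
  calc ((a : ℝ) + 1) * (((H : ℝ) + 2) ^ a * ((H : ℝ) + 2) ^ b)
      ≤ ((H : ℝ) + 2) ^ a * (((H : ℝ) + 2) ^ a * ((H : ℝ) + 2) ^ b) :=
        mul_le_mul_of_nonneg_right h2 (by positivity)
    _ = ((H : ℝ) + 2) ^ (2 * a + b) := by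
        rw [← pow_add, ← pow_add]
        congr 1
        ring

lemma Bx.one {H : ℕ} : Bx H 0 1 := by
  unfold Bx
  simpa using Bd.one

lemma Bx.prod {H a : ℕ} {σ : Type*} (s : Finset σ) {f : σ → Polynomial ℤ} (h : ∀ i ∈ s, Bx H a (f i)) :
    Bx H (2 * a * s.card) (∏ i ∈ s, f i) := by
  classical
  induction s using Finset.induction_on with
  | empty => simpa using Bx.one
  | insert i s hi ih =>
    rw [Finset.prod_insert hi, Finset.card_insert_of_notMem hi]
    refine (Bx.mul (h i (Finset.mem_insert_self _ _)) (ih fun j hj => h j (Finset.mem_insert_of_mem hj))).mono ?_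
    ring_nf
    exact le_rfl

lemma Bx.pow {H a : ℕ} {P : Polynomial ℤ} (h : Bx H a P) (k : ℕ) : Bx H (2 * a * k) (P ^ k) := by
  induction k with
  | zero => simpa using Bx.one
  | succ k ih =>
    rw [pow_succ']
    refine (Bx.mul h ih).mono ?_
    ring_nf
    exact le_rfl

lemma Bx.C {H a : ℕ} {c : ℤ} (h : |(c : ℝ)| ≤ ((H : ℝ) + 2) ^ a) : Bx H a (Polynomial.C c) := by
  refine ⟨by simp, fun l => ?_⟩
  rw [Polynomial.coeff_C]
  split_ifs
  · exact h
  · simp
    positivity

/-! ### reduction -/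

section

variable {I : Type} [Fintype I] [DecidableEq I]

/-- the factor -/
noncomputable def fac (K K' : ℕ) (M : I → ℤ) (φ : I → Polynomial ℤ) : Polynomial ℤ :=
  (∏ i, (Polynomial.C (M i) * φ i) ^ K) * ∏ i, φ i ^ K'

/-- the coefficient -/
noncomputable def num (K K' : ℕ) (M : I → ℤ) (φ W : I → Polynomial ℤ) (c : I → ℤ) (e k : I → ℕ) : Polynomial ℤ :=
  (∏ i, ((Polynomial.C (M i) * φ i) ^ (K - e i) * W i ^ e i)) *
    ∏ i, (φ i ^ (K' - k i) * Polynomial.C (c i) ^ k i)

/-- reduction of a product of square roots -/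
theorem reduce (K : ℕ) (J : Finset I) (r : I → ℚ⟦X⟧) (M c : I → ℤ) (φ W : I → Polynomial ℤ) (T : I → Finset I)
    (hr : ∀ i, r i ^ 2 * ps (φ i) = ((c i : ℤ) : ℚ⟦X⟧)) (hT : ∀ i, T i ⊆ J)
    (hM : ∀ i, ps (Polynomial.C (M i) * φ i) * r i = ps (W i) * ∏ j ∈ T i, r j) (e : I → ℕ)
    (he : ∀ i, e i ≤ K) : ∃ (T' : Finset I) (k : I → ℕ), T' ⊆ J ∧ (∀ i, k i ≤ K * Fintype.card I) ∧
      ps (fac K (K * Fintype.card I) M φ) * ∏ i, r i ^ e i =
        ps (num K (K * Fintype.card I) M φ W c e k) * ∏ j ∈ T', r j := by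
  set K' := K * Fintype.card I with hK'
  set e' : I → ℕ := fun j => ∑ i, if j ∈ T i then e i else 0 with he'
  set k : I → ℕ := fun j => e' j / 2 with hk
  have he'K : ∀ j, e' j ≤ K' := by
    intro j
    calc e' j ≤ ∑ _i : I, K := by
          refine Finset.sum_le_sum fun i _ => ?_
          split_ifs
          · exact he i
          · exact Nat.zero_le _
      _ = K' := by simp [hK', mul_comm]
  have hkK : ∀ j, k j ≤ K' := fun j => (Nat.div_le_self _ _).trans (he'K j)
  refine ⟨Finset.univ.filter fun j => e' j % 2 = 1, k, ?_, hkK, ?_⟩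
  · intro j hj
    rw [Finset.mem_filter] at hj
    by_contra hjJ
    have : e' j = 0 := by
      refine Finset.sum_eq_zero fun i _ => ?_
      rw [if_neg]
      intro h
      exact hjJ (hT i h)
    rw [this] at hj
    simp at hj
  · -- first step
    have h1 : (∏ i, ps ((Polynomial.C (M i) * φ i) ^ K)) * ∏ i, r i ^ e i =
        (∏ i, ps ((Polynomial.C (M i) * φ i) ^ (K - e i) * W i ^ e i)) * ∏ j, r j ^ e' j := by
      have h2 : ∀ i, ps ((Polynomial.C (M i) * φ i) ^ K) * r i ^ e i =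
          ps ((Polynomial.C (M i) * φ i) ^ (K - e i) * W i ^ e i) * ∏ j, r j ^ (if j ∈ T i then e i else 0) := by
        intro i
        have h3 : K = (K - e i) + e i := by have := he i; omega
        have h4 : ps ((Polynomial.C (M i) * φ i) ^ K) =
            ps (Polynomial.C (M i) * φ i) ^ (K - e i) * ps (Polynomial.C (M i) * φ i) ^ e i := by
          rw [ps_pow, ← pow_add, ← h3]
        have h5 : ∏ j, r j ^ (if j ∈ T i then e i else 0) = (∏ j ∈ T i, r j) ^ e i := by
          rw [← Finset.prod_pow, ← Finset.prod_filter_mul_prod_filter_not Finset.univ (fun j => j ∈ T i)]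
          rw [Finset.prod_congr rfl (g := fun j => r j ^ e i) (fun j hj => by
            rw [if_pos (Finset.mem_filter.1 hj).2])]
          have h6 : Finset.univ.filter (fun j => j ∈ T i) = T i := by
            ext j; simp
          rw [h6, Finset.prod_eq_one (s := Finset.univ.filter fun j => ¬ j ∈ T i) (fun j hj => by
            rw [if_neg (Finset.mem_filter.1 hj).2, pow_zero]), mul_one]
        have h6 : ps ((Polynomial.C (M i) * φ i) ^ (K - e i) * W i ^ e i) =
            ps (Polynomial.C (M i) * φ i) ^ (K - e i) * ps (W i) ^ e i := by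
          rw [ps_mul, ps_pow, ps_pow]
        rw [h4, h5, h6, mul_assoc, ← mul_pow, hM i, mul_pow]
        ring
      rw [← Finset.prod_mul_distrib, Finset.prod_congr rfl fun i _ => h2 i, Finset.prod_mul_distrib,
        Finset.prod_comm]
      congr 1
      refine Finset.prod_congr rfl fun j _ => ?_
      rw [Finset.prod_pow_eq_pow_sum]
    -- second step
    have h7 : (∏ i, ps (φ i ^ K')) * ∏ j, r j ^ e' j =
        (∏ i, ps (φ i ^ (K' - k i) * Polynomial.C (c i) ^ k i)) *
          ∏ j ∈ Finset.univ.filter (fun j => e' j % 2 = 1), r j := by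
      have h8 : ∀ i, ps (φ i ^ K') * r i ^ e' i =
          ps (φ i ^ (K' - k i) * Polynomial.C (c i) ^ k i) * (if e' i % 2 = 1 then r i else 1) := by
        intro i
        have h3 : K' = (K' - k i) + k i := by have := hkK i; omega
        have h4 : ps (φ i ^ K') = ps (φ i) ^ (K' - k i) * ps (φ i) ^ k i := by
          rw [ps_pow, ← pow_add, ← h3]
        have h5 : e' i = 2 * k i + e' i % 2 := (Nat.div_add_mod _ _).symm
        have h6 : r i ^ (e' i % 2) = if e' i % 2 = 1 then r i else 1 := by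
          rcases Nat.mod_two_eq_zero_or_one (e' i) with h | h
          · rw [h, pow_zero, if_neg (by norm_num)]
          · rw [h, pow_one, if_pos rfl]
        have h9 : (r i ^ 2 * ps (φ i)) ^ k i = ((c i : ℤ) : ℚ⟦X⟧) ^ k i := by rw [hr i]
        rw [h4, ← h6, ps_mul, ps_pow, ps_pow, ps_C]
        conv_lhs => rw [h5, pow_add, pow_mul]
        rw [← h9, mul_pow]
        ring
      rw [← Finset.prod_mul_distrib, Finset.prod_congr rfl fun i _ => h8 i, Finset.prod_mul_distrib,
        Finset.prod_filter]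
    have hps : ∀ (f : I → Polynomial ℤ), ps (∏ i, f i) = ∏ i, ps (f i) := by
      intro f
      unfold ps
      rw [Polynomial.map_prod]
      exact map_prod (Polynomial.coeToPowerSeries.ringHom (R := ℚ)) _ _
    unfold fac num
    rw [ps_mul, ps_mul, hps, hps, hps, hps]
    calc (∏ i, ps ((Polynomial.C (M i) * φ i) ^ K)) * (∏ i, ps (φ i ^ K')) * ∏ i, r i ^ e i
        = (∏ i, ps (φ i ^ K')) * ((∏ i, ps ((Polynomial.C (M i) * φ i) ^ K)) * ∏ i, r i ^ e i) := by ring
      _ = (∏ i, ps ((Polynomial.C (M i) * φ i) ^ (K - e i) * W i ^ e i)) *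
          ((∏ i, ps (φ i ^ K')) * ∏ j, r j ^ e' j) := by
          rw [h1]
          ring
      _ = _ := by
          rw [h7]
          ring

omit [DecidableEq I] in
/-- bounds for the factor and the coefficient -/
theorem fac_bd (K K' H a N : ℕ) (hN : Fintype.card I ≤ N) (M : I → ℤ) (φ : I → Polynomial ℤ)
    (hM : ∀ i, |((M i : ℤ) : ℝ)| ≤ ((H : ℝ) + 2) ^ a) (hφ : ∀ i, Bx H a (φ i)) :
    Bx H (2 * (2 * (2 * (3 * a) * K) * N) + 2 * (2 * a * K') * N) (fac K K' M φ) := by
  unfold fac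
  have h1 : ∀ i ∈ (Finset.univ : Finset I), Bx H (2 * (3 * a) * K) ((Polynomial.C (M i) * φ i) ^ K) := fun i _ =>
    (((Bx.C (hM i)).mul (hφ i)).mono (by omega : 2 * a + a ≤ 3 * a)).pow K
  have h2 : ∀ i ∈ (Finset.univ : Finset I), Bx H (2 * a * K') (φ i ^ K') := fun i _ => (hφ i).pow K'
  have hcard : (Finset.univ : Finset I).card ≤ N := by
    rw [Finset.card_univ]
    exact hN
  have h3 := (Bx.prod _ h1).mono (Nat.mul_le_mul_left _ hcard)
  have h4 := (Bx.prod _ h2).mono (Nat.mul_le_mul_left _ hcard)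
  exact h3.mul h4

omit [DecidableEq I] in
theorem num_bd (K K' H a N : ℕ) (hN : Fintype.card I ≤ N) (M c : I → ℤ) (φ W : I → Polynomial ℤ)
    (hM : ∀ i, |((M i : ℤ) : ℝ)| ≤ ((H : ℝ) + 2) ^ a) (hc : ∀ i, |((c i : ℤ) : ℝ)| ≤ ((H : ℝ) + 2) ^ a)
    (hφ : ∀ i, Bx H a (φ i)) (hW : ∀ i, Bx H a (W i)) (e k : I → ℕ) (he : ∀ i, e i ≤ K) (hk : ∀ i, k i ≤ K') :
    Bx H (2 * (2 * (2 * (2 * (3 * a) * K) + 2 * a * K) * N) + 2 * (2 * (2 * a * K') + 2 * a * K') * N)
      (num K K' M φ W c e k) := by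
  unfold num
  have h1 : ∀ i ∈ (Finset.univ : Finset I), Bx H (2 * (2 * (3 * a) * K) + 2 * a * K)
      ((Polynomial.C (M i) * φ i) ^ (K - e i) * W i ^ e i) := fun i _ => by
    have e1 := ((((Bx.C (hM i)).mul (hφ i)).mono (by omega : 2 * a + a ≤ 3 * a)).pow (K - e i)).mono
      (Nat.mul_le_mul_left (2 * (3 * a)) (Nat.sub_le K (e i)))
    have e2 := ((hW i).pow (e i)).mono (Nat.mul_le_mul_left (2 * a) (he i))
    exact e1.mul e2
  have h2 : ∀ i ∈ (Finset.univ : Finset I), Bx H (2 * (2 * a * K') + 2 * a * K')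
      (φ i ^ (K' - k i) * Polynomial.C (c i) ^ k i) := fun i _ => by
    have e1 := ((hφ i).pow (K' - k i)).mono (Nat.mul_le_mul_left (2 * a) (Nat.sub_le K' (k i)))
    have e2 := ((Bx.C (hc i)).pow (k i)).mono (Nat.mul_le_mul_left (2 * a) (hk i))
    exact e1.mul e2
  have hcard : (Finset.univ : Finset I).card ≤ N := by
    rw [Finset.card_univ]
    exact hN
  have h3 := (Bx.prod _ h1).mono (Nat.mul_le_mul_left _ hcard)
  have h4 := (Bx.prod _ h2).mono (Nat.mul_le_mul_left _ hcard)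
  exact h3.mul h4

end

end Pool.Agent.Y960.SA
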