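import Pool.Agent.Y960.SA.Base
import Pool.Agent.Y960.SA.Red

/-!
# Job 1154 (SA/VALS): monomials with several shifts
-/

set_option autoImplicit false

open PowerSeries

namespace Pool.Agent.Y960.SA

open Pool.Agent.Y113 Pool.Agent.Y916.Hy Pool.Agent.Y916.Sa Pool.Agent.Y120.GF Pool.Agent.Y678.HV

variable {s : ℕ} (P : Fin s → Polynomial ℤ) (m : Fin s → ℕ)

/-! ### letters -/

/-- the exponents of the roots in a letter -/
def lr : BI m → Fin s → ℕ := Sum.elim (Sum.elim (fun S a => if S a then 1 else 0) fun _ _ => 0) fun _ _ => 0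

/-- the exponents of the functions in a letter -/
def ld : BI m → Tau m → ℕ :=
  Sum.elim (Sum.elim (fun _ _ => 0) fun aj x => if x = Sum.inl aj then 1 else 0) fun u x => if x = Sum.inr u then 1 else 0

lemma prod_ite_pow (f : Tau m → ℚ⟦X⟧) (x₀ : Tau m) : ∏ x, f x ^ (if x = x₀ then 1 else 0) = f x₀ := by
  rw [Finset.prod_eq_single x₀]
  · simp
  · intro x _ hx
    rw [if_neg hx, pow_zero]
  · intro h
    exact absurd (Finset.mem_univ _) h

lemma bf_eq (g : ℕ) (b : BI m) :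
    bf P m g b = (∏ a, Rt (phi (P a) g) ^ lr m b a) * ∏ x, Yg P m g x ^ ld m b x := by
  rcases b with (S | aj) | u
  · have h1 : ∏ x, Yg P m g x ^ ld m (Sum.inl (Sum.inl S)) x = 1 :=
      Finset.prod_eq_one fun x _ => pow_zero _
    rw [h1, mul_one]
    show RS P g S = _
    unfold RS
    refine Finset.prod_congr rfl fun a _ => ?_
    show _ = Rt (phi (P a) g) ^ (if S a then 1 else 0)
    split_ifs
    · rw [pow_one]
    · rw [pow_zero]
  · have h1 : ∏ a, Rt (phi (P a) g) ^ lr m (Sum.inl (Sum.inr aj)) a = 1 :=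
      Finset.prod_eq_one fun x _ => pow_zero _
    rw [h1, one_mul]
    exact (prod_ite_pow m (Yg P m g) (Sum.inl aj)).symm
  · have h1 : ∏ a, Rt (phi (P a) g) ^ lr m (Sum.inr u) a = 1 :=
      Finset.prod_eq_one fun x _ => pow_zero _
    rw [h1, one_mul]
    exact (prod_ite_pow m (Yg P m g) (Sum.inr u)).symm

lemma lr_le (b : BI m) (a : Fin s) : lr m b a ≤ 1 := by
  rcases b with (S | aj) | u
  · show (if S a then 1 else 0) ≤ 1
    split_ifs <;> omega
  · exact Nat.zero_le _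
  · exact Nat.zero_le _

lemma ld_le (b : BI m) : ∑ x, ld m b x ≤ 1 := by
  rcases b with (S | aj) | u
  · have : ∑ x, ld m (Sum.inl (Sum.inl S)) x = 0 := Finset.sum_eq_zero fun x _ => rfl
    omega
  · have : ∑ x, ld m (Sum.inl (Sum.inr aj)) x = ∑ x, if x = Sum.inl aj then 1 else 0 := rfl
    rw [this, Finset.sum_ite_eq' Finset.univ (Sum.inl aj) (fun _ => 1), if_pos (Finset.mem_univ _)]
  · have : ∑ x, ld m (Sum.inr u) x = ∑ x, if x = Sum.inr u then 1 else 0 := rfl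
    rw [this, Finset.sum_ite_eq' Finset.univ (Sum.inr u) (fun _ => 1), if_pos (Finset.mem_univ _)]

/-! ### words -/

variable (Δ : ℕ)

/-- the indices of the words with one shift -/
abbrev WI : Type := (Fin s → Bool) × (Fin Δ → BI m)

/-- the words with one shift -/
noncomputable def OS (g : ℕ) (p : WI m Δ) : ℚ⟦X⟧ := RS P g p.1 * ∏ i, bf P m g (p.2 i)

/-- the exponents of the roots -/
def eR (p : WI m Δ) (a : Fin s) : ℕ := (if p.1 a then 1 else 0) + ∑ i, lr m (p.2 i) a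

/-- the exponents of the functions -/
def eD (p : WI m Δ) (x : Tau m) : ℕ := ∑ i, ld m (p.2 i) x

lemma eR_le (p : WI m Δ) (a : Fin s) : eR m Δ p a ≤ Δ + 1 := by
  unfold eR
  have h1 : ∑ i, lr m (p.2 i) a ≤ ∑ _i : Fin Δ, 1 := Finset.sum_le_sum fun i _ => lr_le m _ _
  have h2 : ∑ _i : Fin Δ, 1 = Δ := by simp
  have h3 : (if p.1 a then 1 else 0) ≤ 1 := by split_ifs <;> omega
  omega

lemma eD_le (p : WI m Δ) : ∑ x, eD m Δ p x ≤ Δ := by
  unfold eD
  rw [Finset.sum_comm]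
  calc ∑ i, ∑ x, ld m (p.2 i) x ≤ ∑ _i : Fin Δ, 1 := Finset.sum_le_sum fun i _ => ld_le m _
    _ = Δ := by simp

lemma OS_eq (g : ℕ) (p : WI m Δ) :
    OS P m Δ g p = (∏ a, Rt (phi (P a) g) ^ eR m Δ p a) * ∏ x, Yg P m g x ^ eD m Δ p x := by
  unfold OS eR eD RS
  have h1 : ∏ i, bf P m g (p.2 i) = (∏ i, ∏ a, Rt (phi (P a) g) ^ lr m (p.2 i) a) *
      ∏ i, ∏ x, Yg P m g x ^ ld m (p.2 i) x := by
    rw [← Finset.prod_mul_distrib]
    exact Finset.prod_congr rfl fun i _ => bf_eq P m g _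
  rw [h1, ← mul_assoc]
  congr 1
  · rw [Finset.prod_comm, ← Finset.prod_mul_distrib]
    refine Finset.prod_congr rfl fun a _ => ?_
    rw [Finset.prod_pow_eq_pow_sum, pow_add]
    congr 1
    split_ifs
    · rw [pow_one]
    · rw [pow_zero]
  · rw [Finset.prod_comm]
    refine Finset.prod_congr rfl fun x _ => ?_
    rw [Finset.prod_pow_eq_pow_sum]

/-- every monomial of degree at most `Δ` is a word -/
lemma exists_f (d : Tau m → ℕ) (hd : ∑ x, d x ≤ Δ) :
    ∃ f : Fin Δ → BI m, ∀ g, ∏ i, bf P m g (f i) = ∏ x, Yg P m g x ^ d x := by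
  obtain ⟨f, hf⟩ := Pool.Agent.Y678.HG.exists_word Δ d hd
  let tr : Option (Tau m) → BI m := fun o => o.elim (Sum.inl (Sum.inl fun _ => false))
    (Sum.elim (fun aj => Sum.inl (Sum.inr aj)) fun u => Sum.inr u)
  refine ⟨fun i => tr (f i), fun g => ?_⟩
  rw [← hf (Yg P m g)]
  have key : ∀ o : Option (Tau m), bf P m g (tr o) = (o.elim 1 (Yg P m g) : ℚ⟦X⟧) := by
    rintro (_ | (aj | u))
    · exact bf_none P m g
    · rfl
    · rfl
  exact Finset.prod_congr rfl fun i _ => key (f i)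

theorem OS_sys (halg : S_alg) (heint : S_eint) (hP : ∀ a, GoodO (P a) ∧ m a < (P a).natDegree) :
    ∃ q E : ℕ, ∀ g : ℕ, GSys q (((g : ℝ) + 2) ^ E) (Tg P g) (OS P m Δ g) := by
  obtain ⟨q, E₀, hE₀⟩ := base_sys P m halg heint hP
  obtain ⟨E₁, hE₁⟩ := Pool.Agent.Y678.HG.words (fun g => (hE₀ g).1) Δ
  obtain ⟨E₂, hE₂⟩ := t_prod q
  refine ⟨q, (max E₀ E₁ + 1) * E₂, fun g => ?_⟩
  have hx1 := one_le_base g
  have h1 := (hE₀ g).2.mono le_rfl (base_mono hx1 (le_max_left E₀ E₁))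
  have h2 := (hE₁ g).mono le_rfl (base_mono hx1 (le_max_right E₀ E₁))
  exact (hE₂ _ _ _ _ _ _ h1 h2).mono le_rfl (pow_base g _ _)

/-! ### several shifts -/

/-- exponents of degree at most `Δ` -/
def Dx : Type := {e : Tau m → Fin (Δ + 1) // ∑ x, (e x : ℕ) ≤ Δ}

instance : Fintype (Dx m Δ) := by unfold Dx; infer_instance
instance : DecidableEq (Dx m Δ) := by unfold Dx; infer_instance

variable {N : ℕ} (g : Fin N → ℕ)

/-- the roots -/
noncomputable def rt (i : Fin s × Fin N) : ℚ⟦X⟧ := Rt (phi (P i.1) (g i.2))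

/-- the indices of the reduced monomials -/
abbrev KI (J : Finset (Fin s × Fin N)) : Type := {T : Finset (Fin s × Fin N) // T ⊆ J} × (Fin N → Dx m Δ)

/-- the reduced monomials -/
noncomputable def wf (J : Finset (Fin s × Fin N)) (p : KI m Δ J) : ℚ⟦X⟧ :=
  (∏ i ∈ p.1.1, rt P g i) * ∏ l, ∏ x, Yg P m (g l) x ^ ((p.2 l).1 x : ℕ)

/-- the exponents -/
noncomputable def DD (d : Fin N → Dx m Δ) : (Fin N × Tau m) →₀ ℕ :=
  Finsupp.equivFunOnFinite.symm fun x => ((d x.1).1 x.2 : ℕ)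

lemma DD_apply (d : Fin N → Dx m Δ) (x : Fin N × Tau m) : DD m Δ d x = ((d x.1).1 x.2 : ℕ) := rfl

lemma DD_inj : Function.Injective (DD m Δ (N := N)) := by
  intro d d' h
  funext l
  apply Subtype.ext
  funext x
  apply Fin.ext
  have := DFunLike.congr_fun h (l, x)
  rwa [DD_apply, DD_apply] at this

lemma wf_eq (J : Finset (Fin s × Fin N)) (p : KI m Δ J) :
    wf P m Δ g J p = (∏ i ∈ p.1.1, Rt (phi (P i.1) (g i.2))) *
      (DD m Δ p.2).prod fun x e => Yg P m (g x.1) x.2 ^ e := by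
  rw [Finsupp.prod_fintype _ _ (fun _ => pow_zero _), Fintype.prod_prod_type]
  rfl

lemma exists_d (d : (Fin N × Tau m) →₀ ℕ) (hd : (d.sum fun _ k => k) ≤ Δ) :
    ∃ b : Fin N → Dx m Δ, DD m Δ b = d := by
  have h2 : ∑ i, d i ≤ Δ := by
    rwa [Finsupp.sum_fintype _ _ (fun _ => rfl)] at hd
  have hi : ∀ i, d i < Δ + 1 := fun i => by
    have := Finset.single_le_sum (f := fun i => d i) (fun _ _ => Nat.zero_le _) (Finset.mem_univ i)
    omega
  have h3 : ∀ l, ∑ x, d (l, x) ≤ Δ := by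
    intro l
    rw [Fintype.sum_prod_type] at h2
    exact (Finset.single_le_sum (f := fun l => ∑ x, d (l, x)) (fun _ _ => Nat.zero_le _)
      (Finset.mem_univ l)).trans h2
  refine ⟨fun l => ⟨fun x => ⟨d (l, x), hi _⟩, h3 l⟩, ?_⟩
  ext x
  rfl

/-- the reduced monomials are words -/
lemma wf_word (J : Finset (Fin s × Fin N)) (p : KI m Δ J) :
    ∃ b : Fin N → WI m Δ, wf P m Δ g J p = ∏ l, OS P m Δ (g l) (b l) := by
  choose f hf using fun l => exists_f P m Δ (fun x => ((p.2 l).1 x : ℕ)) (p.2 l).2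
  refine ⟨fun l => (fun a => decide ((a, l) ∈ p.1.1), f l), ?_⟩
  unfold wf OS
  rw [Finset.prod_mul_distrib]
  congr 1
  · unfold RS
    have h1 : ∏ i ∈ p.1.1, rt P g i = ∏ i, if i ∈ p.1.1 then rt P g i else 1 := by
      rw [Finset.prod_ite_mem, Finset.univ_inter]
    rw [h1, Fintype.prod_prod_type, Finset.prod_comm]
    refine Finset.prod_congr rfl fun l _ => Finset.prod_congr rfl fun a _ => ?_
    by_cases h : (a, l) ∈ p.1.1
    · rw [if_pos h, if_pos (decide_eq_true h)]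
      rfl
    · rw [if_neg h, if_neg (by simpa using h)]
  · exact Finset.prod_congr rfl fun l _ => (hf l (g l)).symm

/-- the words in terms of the roots and the functions -/
lemma word_eq (b : Fin N → WI m Δ) : ∏ l, OS P m Δ (g l) (b l) =
    (∏ i : Fin s × Fin N, rt P g i ^ eR m Δ (b i.2) i.1) * ∏ l, ∏ x, Yg P m (g l) x ^ eD m Δ (b l) x := by
  rw [Finset.prod_congr rfl fun l _ => OS_eq P m Δ (g l) (b l), Finset.prod_mul_distrib]
  congr 1
  rw [Fintype.prod_prod_type, Finset.prod_comm]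
  rfl

/-- the exponents of a word -/
def dOf (b : Fin N → WI m Δ) : Fin N → Dx m Δ := fun l =>
  ⟨fun x => ⟨eD m Δ (b l) x, by
    have h1 := eD_le m Δ (b l)
    have h2 := Finset.single_le_sum (f := fun x => eD m Δ (b l) x) (fun _ _ => Nat.zero_le _) (Finset.mem_univ x)
    omega⟩, eD_le m Δ (b l)⟩

/-- every word is, up to bounded polynomials, a reduced monomial -/
theorem word_red (J : Finset (Fin s × Fin N)) (M c : Fin s × Fin N → ℤ) (W : Fin s × Fin N → Polynomial ℤ)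
    (T : Fin s × Fin N → Finset (Fin s × Fin N))
    (hr : ∀ i, rt P g i ^ 2 * ps (phi (P i.1) (g i.2)) = ((c i : ℤ) : ℚ⟦X⟧)) (hT : ∀ i, T i ⊆ J)
    (hM : ∀ i, ps (Polynomial.C (M i) * phi (P i.1) (g i.2)) * rt P g i = ps (W i) * ∏ j ∈ T i, rt P g j)
    (b : Fin N → WI m Δ) : ∃ (k : Fin s × Fin N → ℕ) (p : KI m Δ J),
      (∀ i, k i ≤ (Δ + 1) * Fintype.card (Fin s × Fin N)) ∧
      ps (fac (Δ + 1) ((Δ + 1) * Fintype.card (Fin s × Fin N)) M fun i => phi (P i.1) (g i.2)) *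
          ∏ l, OS P m Δ (g l) (b l) =
        ps (num (Δ + 1) ((Δ + 1) * Fintype.card (Fin s × Fin N)) M (fun i => phi (P i.1) (g i.2)) W c
          (fun i => eR m Δ (b i.2) i.1) k) * wf P m Δ g J p := by
  obtain ⟨T', k, hT', hk, h⟩ := reduce (Δ + 1) J (rt P g) M c (fun i => phi (P i.1) (g i.2)) W T hr hT hM
    (fun i => eR m Δ (b i.2) i.1) (fun i => eR_le m Δ _ _)
  refine ⟨k, (⟨T', hT'⟩, dOf m Δ b), hk, ?_⟩
  rw [word_eq, ← mul_assoc, h]
  unfold wf
  rw [mul_assoc]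
  rfl

end Pool.Agent.Y960.SA
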